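import Pool.Agent.N184.HK.W7

/-!
# Projective hyperkähler varieties over local fields: definitions

Let `k` be a finite extension of `ℚ_p` and `X` a projective hyperkähler variety over `k`. It is
defined over a finitely generated field `K₁` contained in `k`, and it spreads out to a smooth
projective family over an integral scheme `S`, smooth over `ℤ[1 / N]`, with function field `K₁`. The
fundamental group of `S` acts on the cohomology of `X`, and it contains Frobenius elements of the closed
points of `S`. The image of the Galois group of `k` is contained in the image of this group.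
-/

set_option autoImplicit false

namespace Pool.Agent.V7H12.LF

open Module Module.End Polynomial
open Pool.Agent.N184.HK Pool.Agent.Y143

/-- `Φ` is the geometric Frobenius element of a closed point `s` of `S` with residue field `𝔽_p`
(`p` is any prime number at which `S` has such points, and it is not the characteristic of the residue
field of `k`):

* it multiplies the form on `H²` by `p ^ 2`;
* its characteristic polynomials `poly i` on the `H^i` have integral coefficients and roots of absolute
  value `p ^ (i / 2)` (Deligne);
* `crys` is the crystalline cohomology of the fibre `X_s`, with the Hodge filtration of a lift of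
  `X_s` to a hyperkähler variety over `ℤ_p`, which exists as `S` is smooth; it has the same
  characteristic polynomials of Frobenius (Katz, Messing). -/
structure GoodPoint {Ω : Type} [Field Ω] {d : ℕ} {c : ℚ} {H : Cohomology Ω d c} (Φ : H.Auto) where
  p : ℕ
  prime : p.Prime
  mult : Φ.μ = (p : Ω) ^ 2
  poly : ℕ → ℤ[X]
  frob : ∀ i ≤ d, (en (Φ.φ i)).charpoly = (poly i).map (Int.castRingHom Ω)
  weil : IsWeilPoly p d poly
  crys : CrysPlace d c p
  crysPoly : crys.HasPoly poly

/-- A projective hyperkähler variety `X` of dimension `d / 2` over a field `k` of characteristic zero,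
in a smooth projective family over an integral scheme `S` which is smooth over `ℤ[1 / N]`, where `ℓ`
divides `N`: the cohomology `H = H^*(X_{\bar k}, ℚ_ℓ) ⊗ Ω`, with the form on `H²` and the action of
`so(H²)`, and with the continuous action `A` of the profinite group `Γ = π₁(S)`. The geometric
Frobenius elements of the closed points of `S` with residue field of prime order are dense in `Γ`
(Chebotarev's density theorem for schemes of finite type over `ℤ`, Serre). -/
structure Family (Ω : Type) [Field Ω] [TopologicalSpace Ω] where
  d : ℕ
  two_le : 2 ≤ d
  c : ℚ
  H : Cohomology Ω d c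
  Γ : Type
  [group : Group Γ]
  [top : TopologicalSpace Γ]
  [tgroup : IsTopologicalGroup Γ]
  [compact : CompactSpace Γ]
  A : Γ → H.Auto
  mul : ∀ σ τ i, (A (σ * τ)).φ i = ((A τ).φ i).trans ((A σ).φ i)
  cont : ∀ i, Cts fun σ => en ((A σ).φ i)
  cont_μ : Continuous fun σ => (A σ).μ
  dense : ∀ O : Set Γ, IsOpen O → O.Nonempty → ∃ σ ∈ O, Nonempty (GoodPoint (A σ))

attribute [instance] Family.group Family.top Family.tgroup Family.compact

/-- The regular functions on the group of the automorphisms of the cohomology: the polynomials in the
matrix coefficients of the automorphism and of its inverse on the `H^i`, for `i ≤ d`, and in the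
multiplier `μ`. -/
noncomputable def regular {Ω : Type} [Field Ω] {d : ℕ} {c : ℚ} (H : Cohomology Ω d c) :
    Subalgebra Ω (H.Auto → Ω) :=
  Algebra.adjoin Ω {f | (∃ i ≤ d, ∃ L : Module.Dual Ω (Module.End Ω (H.H i)),
    (f = fun F => L (en (F.φ i))) ∨ f = fun F => L (en (F.φ i).symm)) ∨ f = fun F => F.μ}

/-- `F` is in the Zariski closure of the image of `Γ`: the regular functions which vanish on the image
of `Γ` vanish at `F`. -/
def Family.InClosure {Ω : Type} [Field Ω] [TopologicalSpace Ω] (X : Family Ω) (F : X.H.Auto) :
    Prop :=
  ∀ f ∈ regular X.H, (∀ σ, f (X.A σ) = 0) → f F = 0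

/-- The Hyodo-Kato cohomology of a projective hyperkähler variety `X` over a finite extension `k` of
`ℚ_p` whose residue field has `q` elements; `k` is so large that all `H^i` are semistable. Here
`ℓ = p` and `Ω` is an algebraic closure of `ℚ_p`.

By Fontaine and Tsuji `V ↦ D_st(V)` is an exact tensor functor from the tensor category of
representations of the Galois group `G_k` which is generated by the `H^i(X_{\bar k}, ℚ_p)`, to the
`(φ, N)`-modules, which respects the dimension, and `D_st(H^i(X_{\bar k}, ℚ_p)) = H^i_HK(X)`. So
`V ↦ D_st(V) ⊗ Ω` and `V ↦ V ⊗ Ω` are fibre functors over the algebraically closed field `Ω`, and they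
are isomorphic (Deligne, Milne). We fix an isomorphism, and use it to identify `H^i_HK(X) ⊗ Ω` and
`H^i(X_{\bar k}, ℚ_p) ⊗ Ω`. It respects the form on `H²` and the action of `so(H²)`, as they are given by
morphisms of representations. Then

* the linear Frobenius `F = φ ^ f`, where `q = p ^ f`, is an automorphism of the first fibre functor,
  so it is an automorphism of the second one, that is, it is in the Zariski closure of the image of
  `G_k`, and so in the one of the image of `Γ`;
* `M` contains the monodromy operators `N`, with `N F = q F N`, compatible with the action of `so(H²)`,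
  the fact that the eigenvalues of `F` are Weil numbers (Mokrane, de Jong) and the weight-monodromy
  conjecture for `H²` (Mokrane, de Jong). -/
structure HyodoKatoData {Ω : Type} [Field Ω] [CharZero Ω] [TopologicalSpace Ω] (X : Family Ω)
    (q : ℕ) where
  F : X.H.Auto
  closure : X.InClosure F
  M : Monodromy F q

section

variable {Ω : Type} [Field Ω] [CharZero Ω] [TopologicalSpace Ω] {X : Family Ω} {q : ℕ}

/-- The weight-monodromy conjecture for `H^i_HK(X)`: the eigenvalues of the Frobenius on the graded
piece `a` of the monodromy filtration are Weil numbers of weight `i + a`. -/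
def HyodoKatoData.IsPure (L : HyodoKatoData X q) (i : ℕ) : Prop :=
  IsMWPure q i (en (L.F.φ i)) (L.M.N i)

/-- The monodromy operator on `H^i` is given by the one on `H²` and the action of `so(H²)`. -/
def HyodoKatoData.MonodromyFromH2 (L : HyodoKatoData X q) (i : ℕ) : Prop :=
  L.M.N i = X.H.ρ i (L.M.N 2)

end

end Pool.Agent.V7H12.LF
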