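import Pool.Agent.V7H12.LF.Fin

/-!
# Special fibres of semistable hyperkähler varieties
-/

set_option autoImplicit false

namespace Pool.Agent.V7H12.LF

open Module Module.End Polynomial
open Pool.Agent.N184.HK Pool.Agent.Y143

/-- The special fibre `Y` of a projective (strictly) semistable model of a projective hyperkähler
variety `X` over a finite extension `k` of `ℚ_p`, where `p` is not `ℓ` and the residue field of `k` has
`q` elements. `Y` is an SNCL scheme over the log point, and its log `ℓ`-adic cohomology is
`H^i(X_{\bar k}, ℚ_ℓ)` (Nakayama). `σ` is the image in `Γ` of an element of the Galois group of `k`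
which lifts the geometric Frobenius element, and `M` contains the monodromy operators `N`, with
`N Φ = q Φ N` for the action `Φ` of `σ` on `H^i`, compatible with the action of `so(H²)`; the eigenvalues
of `Φ` are Weil numbers (Deligne, Rapoport-Zink, Nakayama), and the weight-monodromy conjecture is
known for `H²` (Rapoport-Zink, Nakayama). -/
structure LogFibre {Ω : Type} [Field Ω] [CharZero Ω] [TopologicalSpace Ω] (X : Family Ω)
    (q : ℕ) where
  σ : X.Γ
  M : Monodromy (X.A σ) q

section

variable {Ω : Type} [Field Ω] [CharZero Ω] [TopologicalSpace Ω] {X : Family Ω} {q : ℕ}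

/-- The part of weight `w` of `H^i`, that is, the sum of the generalized eigenspaces of `σ` for the Weil
numbers of weight `w`. It is mapped isomorphically to the graded piece `gr_w` of the weight
filtration, as the terms of the weight spectral sequence are pure (Deligne). -/
def LogFibre.gr (L : LogFibre X q) (i : ℕ) (w : ℤ) : Submodule Ω (X.H.H i) :=
  WS q (en ((X.A L.σ).φ i)) w

/-- Kato's conjecture for `H^i`: the map `N^e` from `gr_(i + e)` to `gr_(i - e)` is bijective, for
all `e`. -/
def LogFibre.KatoAt (L : LogFibre X q) (i : ℕ) : Prop :=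
  ∀ e : ℕ, Set.BijOn (⇑(L.M.N i ^ e)) (L.gr i ((i : ℤ) + e) : Set (X.H.H i))
    (L.gr i ((i : ℤ) - e) : Set (X.H.H i))

end

section

variable {Ω : Type} [Field Ω] [CharZero Ω] [IsAlgClosed Ω] [TopologicalSpace Ω]
  [IsTopologicalRing Ω] [T2Space Ω] {X : Family Ω} {q : ℕ}

lemma inClosure_self (σ : X.Γ) : X.InClosure (X.A σ) := fun _ _ h => h σ

theorem kato_all (hq : 1 < q) (L : LogFibre X q) {i : ℕ} (hi : i ≤ X.d) : L.KatoAt i :=
  fun e => bij_all hq (inClosure_self L.σ) L.M hi e

end

end Pool.Agent.V7H12.LF
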