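import Pool.Agent.V7H12.LF.Good

/-!
# Regular functions and the Zariski closure of the image of the fundamental group
-/

set_option autoImplicit false

namespace Pool.Agent.V7H12.LF

open Module Module.End Polynomial
open Pool.Agent.N184.HK Pool.Agent.Y143
open scoped Classical

section reg

variable {Ω : Type} [Field Ω] {d : ℕ} {c : ℚ} {H : Cohomology Ω d c}

/-- The coefficients of `g F` are regular functions of `F`. -/
def Reg {V : Type} [AddCommGroup V] [Module Ω V] (g : H.Auto → Module.End Ω V) : Prop :=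
  ∀ L : Module.Dual Ω (Module.End Ω V), (fun F => L (g F)) ∈ regular H

lemma const_mem (r : Ω) : (fun _ : H.Auto => r) ∈ regular H :=
  (regular H).algebraMap_mem r

lemma mu_mem : (fun F : H.Auto => F.μ) ∈ regular H :=
  Algebra.subset_adjoin (Or.inr rfl)

lemma reg_const {V : Type} [AddCommGroup V] [Module Ω V] (a : Module.End Ω V) :
    Reg (H := H) fun _ => a :=
  fun L => const_mem (L a)

lemma reg_phi {i : ℕ} (hi : i ≤ d) : Reg (H := H) fun F => en (F.φ i) :=
  fun L => Algebra.subset_adjoin (Or.inl ⟨i, hi, L, Or.inl rfl⟩)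

lemma reg_symm {i : ℕ} (hi : i ≤ d) : Reg (H := H) fun F => en (F.φ i).symm :=
  fun L => Algebra.subset_adjoin (Or.inl ⟨i, hi, L, Or.inr rfl⟩)

variable {V : Type} [AddCommGroup V] [Module Ω V]

lemma Reg.add {g h : H.Auto → Module.End Ω V} (hg : Reg g) (hh : Reg h) :
    Reg fun F => g F + h F := by
  intro L
  have h1 : (fun F => L (g F + h F)) = (fun F => L (g F)) + fun F => L (h F) := by
    funext F
    rw [map_add]
    rfl
  rw [h1]
  exact (regular H).add_mem (hg L) (hh L)

lemma Reg.sub {g h : H.Auto → Module.End Ω V} (hg : Reg g) (hh : Reg h) :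
    Reg fun F => g F - h F := by
  intro L
  have h1 : (fun F => L (g F - h F)) = (fun F => L (g F)) - fun F => L (h F) := by
    funext F
    rw [map_sub]
    rfl
  rw [h1]
  exact (regular H).sub_mem (hg L) (hh L)

variable [FiniteDimensional Ω V]

lemma Reg.entry {f : H.Auto → Module.End Ω V} (hf : Reg f)
    (i j : Fin (finrank Ω V)) :
    (fun F => LinearMap.toMatrix (Module.finBasis Ω V) (Module.finBasis Ω V) (f F) i j) ∈
      regular H := by
  let L : Module.End Ω V →ₗ[Ω] Ω :=
    { toFun := fun A => LinearMap.toMatrix (Module.finBasis Ω V) (Module.finBasis Ω V) A i j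
      map_add' := fun A B => by rw [map_add, Matrix.add_apply]
      map_smul' := fun c A => by rw [map_smul, Matrix.smul_apply, RingHom.id_apply] }
  exact hf L

lemma Reg.mul {g h : H.Auto → Module.End Ω V} (hg : Reg g) (hh : Reg h) :
    Reg fun F => g F * h F := by
  intro L
  set b := Module.finBasis Ω V with hb
  have hL : ∀ A : Module.End Ω V, L A = ∑ i, ∑ j, LinearMap.toMatrix b b A i j *
      L ((LinearMap.toMatrix b b).symm (Matrix.single i j 1)) := by
    intro A
    have h1 : A = (LinearMap.toMatrix b b).symm (LinearMap.toMatrix b b A) := by simp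
    conv_lhs => rw [h1, Matrix.matrix_eq_sum_single (LinearMap.toMatrix b b A)]
    rw [map_sum, map_sum]
    refine Finset.sum_congr rfl fun i _ => ?_
    rw [map_sum, map_sum]
    refine Finset.sum_congr rfl fun j _ => ?_
    have h2 : Matrix.single i j (LinearMap.toMatrix b b A i j) =
        (LinearMap.toMatrix b b A i j) • Matrix.single i j (1 : Ω) := by
      rw [Matrix.smul_single, smul_eq_mul, mul_one]
    rw [h2, map_smul, map_smul, smul_eq_mul]
  have h3 : (fun F => L (g F * h F)) = ∑ i, ∑ j,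
      (∑ k, (fun F => LinearMap.toMatrix b b (g F) i k) *
        fun F => LinearMap.toMatrix b b (h F) k j) *
      fun _ => L ((LinearMap.toMatrix b b).symm (Matrix.single i j 1)) := by
    funext F
    rw [hL, LinearMap.toMatrix_mul]
    simp only [Finset.sum_apply, Pi.mul_apply, Matrix.mul_apply]
  rw [h3]
  refine (regular H).sum_mem fun i _ => (regular H).sum_mem fun j _ =>
    (regular H).mul_mem ((regular H).sum_mem fun k _ => (regular H).mul_mem (hg.entry i k)
      (hh.entry k j)) (const_mem _)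

lemma Reg.det {g : H.Auto → Module.End Ω V} (hg : Reg g) :
    (fun F => LinearMap.det (g F)) ∈ regular H := by
  set b := Module.finBasis Ω V with hb
  have h1 : (fun F => LinearMap.det (g F)) = ∑ σ : Equiv.Perm (Fin (finrank Ω V)),
      (fun _ => ((Equiv.Perm.sign σ : ℤ) : Ω)) *
        ∏ i, fun F => LinearMap.toMatrix b b (g F) (σ i) i := by
    funext F
    rw [← LinearMap.det_toMatrix b, Matrix.det_apply']
    simp only [Finset.sum_apply, Pi.mul_apply, Finset.prod_apply]
  rw [h1]
  refine (regular H).sum_mem fun σ _ => (regular H).mul_mem (const_mem _)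
    ((regular H).prod_mem fun i _ => hg.entry _ _)

lemma Reg.adE {i : ℕ} (hi : i ≤ d) {g : H.Auto → Module.End Ω (H.H i)} (hg : Reg g) :
    Reg fun F => adE (F.φ i) (g F) :=
  ((reg_phi hi).mul hg).mul (reg_symm hi)

lemma Reg.adE_pow {i : ℕ} (hi : i ≤ d) (M : ℕ) {g : H.Auto → Module.End Ω (H.H i)}
    (hg : Reg g) : Reg fun F => ((Pool.Agent.N184.HK.adE (F.φ i)) ^ M) (g F) := by
  induction M with
  | zero => exact hg
  | succ M ih =>
    have h2 : (fun F : H.Auto => ((Pool.Agent.N184.HK.adE (F.φ i)) ^ (M + 1)) (g F)) =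
        fun F => Pool.Agent.N184.HK.adE (F.φ i)
          (((Pool.Agent.N184.HK.adE (F.φ i)) ^ M) (g F)) := by
      funext F
      rw [_root_.pow_succ']
      rfl
    rw [h2]
    exact ih.adE hi

lemma reg_quasi {i : ℕ} (hi : i ≤ d) (M m : ℕ) (a : Module.End Ω (H.H i)) :
    Reg (H := H) fun F => (((Pool.Agent.N184.HK.adE (F.φ i)) ^ M - 1) ^ m) a := by
  induction m with
  | zero => exact reg_const a
  | succ m ih =>
    have h2 : (fun F : H.Auto => (((Pool.Agent.N184.HK.adE (F.φ i)) ^ M - 1) ^ (m + 1)) a) =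
        fun F => ((Pool.Agent.N184.HK.adE (F.φ i)) ^ M)
          ((((Pool.Agent.N184.HK.adE (F.φ i)) ^ M - 1) ^ m) a) -
          (((Pool.Agent.N184.HK.adE (F.φ i)) ^ M - 1) ^ m) a := by
      funext F
      rw [_root_.pow_succ']
      rfl
    rw [h2]
    exact (ih.adE_pow hi M).sub ih

end reg

section family

variable {Ω : Type} [Field Ω] [CharZero Ω] [IsAlgClosed Ω] [TopologicalSpace Ω]
  [IsTopologicalRing Ω] [T2Space Ω] (X : Family Ω)

omit [CharZero Ω] [IsAlgClosed Ω] [IsTopologicalRing Ω] [T2Space Ω] in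
lemma Family.A_one (i : ℕ) (x : X.H.H i) : (X.A 1).φ i x = x := by
  have h := X.mul 1 1 i
  rw [one_mul] at h
  have h2 := congrArg (fun f => f x) h
  exact ((X.A 1).φ i).injective h2.symm

omit [CharZero Ω] [IsAlgClosed Ω] [IsTopologicalRing Ω] [T2Space Ω] in
lemma Family.A_inv (σ : X.Γ) (i : ℕ) : (X.A σ⁻¹).φ i = ((X.A σ).φ i).symm := by
  ext x
  have h := X.mul σ σ⁻¹ i
  rw [mul_inv_cancel] at h
  have h2 : (X.A 1).φ i x = (X.A σ).φ i ((X.A σ⁻¹).φ i x) := congrArg (fun f => f x) h
  rw [X.A_one] at h2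
  rw [LinearEquiv.eq_symm_apply, ← h2]

omit [CharZero Ω] [IsAlgClosed Ω] [IsTopologicalRing Ω] [T2Space Ω] in
lemma Family.adE_mul (σ τ : X.Γ) (i : ℕ) (a : Module.End Ω (X.H.H i)) :
    adE ((X.A (σ * τ)).φ i) a = adE ((X.A σ).φ i) (adE ((X.A τ).φ i) a) := by
  rw [X.mul σ τ i]
  ext x
  simp [Pool.Agent.N184.HK.adE, LinearEquiv.conj_apply]

omit [CharZero Ω] [IsAlgClosed Ω] [T2Space Ω] in
lemma Family.cts_adE (i : ℕ) {g : X.Γ → Module.End Ω (X.H.H i)} (hg : Cts g) :
    Cts fun σ => adE ((X.A σ).φ i) (g σ) := by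
  have h1 : Cts fun σ : X.Γ => en ((X.A σ⁻¹).φ i) := fun L => (X.cont i L).comp continuous_inv
  have h2 := (t_cts Ω (X.H.H i) X.Γ _ _ (X.cont i) hg).1
  have h3 := (t_cts Ω (X.H.H i) X.Γ _ _ h2 h1).1
  have h4 : (fun σ => adE ((X.A σ).φ i) (g σ)) =
      fun σ => en ((X.A σ).φ i) * g σ * en ((X.A σ⁻¹).φ i) := by
    funext σ
    rw [X.A_inv]
    rfl
  rw [h4]
  exact h3

omit [CharZero Ω] [IsAlgClosed Ω] [T2Space Ω] in
lemma Family.cts_adE_pow (i M : ℕ) {g : X.Γ → Module.End Ω (X.H.H i)} (hg : Cts g) :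
    Cts fun σ => ((adE ((X.A σ).φ i)) ^ M) (g σ) := by
  induction M with
  | zero => exact hg
  | succ M ih =>
    have h2 : (fun σ => ((adE ((X.A σ).φ i)) ^ (M + 1)) (g σ)) =
        fun σ => adE ((X.A σ).φ i) (((adE ((X.A σ).φ i)) ^ M) (g σ)) := by
      funext σ
      rw [_root_.pow_succ']
      rfl
    rw [h2]
    exact X.cts_adE i ih

omit [CharZero Ω] [IsAlgClosed Ω] [T2Space Ω] in
lemma Family.cts_quasi (i M m : ℕ) {g : X.Γ → Module.End Ω (X.H.H i)} (hg : Cts g) :
    Cts fun σ => (((adE ((X.A σ).φ i)) ^ M - 1) ^ m) (g σ) := by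
  induction m with
  | zero => exact hg
  | succ m ih =>
    have h := X.cts_adE_pow i M ih
    intro L
    have h2 : (fun σ => L ((((adE ((X.A σ).φ i)) ^ M - 1) ^ (m + 1)) (g σ))) =
        fun σ => L (((adE ((X.A σ).φ i)) ^ M) ((((adE ((X.A σ).φ i)) ^ M - 1) ^ m) (g σ))) -
          L ((((adE ((X.A σ).φ i)) ^ M - 1) ^ m) (g σ)) := by
      funext σ
      rw [_root_.pow_succ', ← map_sub]
      rfl
    rw [h2]
    exact (h L).sub (ih L)

omit [CharZero Ω] [IsAlgClosed Ω] [IsTopologicalRing Ω] in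
/-- A continuous function which vanishes at the good Frobenius elements in an open set vanishes on
this set. -/
lemma Family.dense_zero {O : Set X.Γ} (hO : IsOpen O) {g : X.Γ → Ω} (hg : Continuous g)
    (h : ∀ σ ∈ O, GoodPoint (X.A σ) → g σ = 0) : ∀ σ ∈ O, g σ = 0 := by
  intro σ hσ
  by_contra hne
  have h1 : IsOpen (O ∩ g ⁻¹' {0}ᶜ) := hO.inter (isOpen_compl_singleton.preimage hg)
  obtain ⟨τ, hτ, ⟨P⟩⟩ := X.dense _ h1 ⟨σ, hσ, hne⟩
  exact hτ.2 (h τ hτ.1 P)

/-- The exponent of the roots of unity. -/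
noncomputable def expoF (X : Family Ω) (i : ℕ) : ℕ :=
  (2 * (finrank Ω (X.H.H i)) ^ 2).factorial

/-- The group `Γ` acts quasi-unipotently on the commutant of `so(H²)`. -/
lemma Family.quasi {i : ℕ} (hi : i ≤ X.d) {a : Module.End Ω (X.H.H i)} (ha : a ∈ cen X.H i)
    (σ : X.Γ) : (((adE ((X.A σ).φ i)) ^ (expoF X i) - 1) ^ (finrank Ω (cen X.H i))) a = 0 := by
  have key : ∀ L : Module.Dual Ω (Module.End Ω (X.H.H i)), ∀ σ ∈ (Set.univ : Set X.Γ),
      L ((((adE ((X.A σ).φ i)) ^ (expoF X i) - 1) ^ (finrank Ω (cen X.H i))) a) = 0 := by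
    intro L
    refine X.dense_zero isOpen_univ (X.cts_quasi i _ _ (g := fun _ => a)
      (fun L => continuous_const) L) fun σ _ P => ?_
    have hst : ∀ x ∈ cen X.H i, adE ((X.A σ).φ i) x ∈ cen X.H i := fun x hx => cen_ad _ hx
    have h1 := t_qu Ω (cen X.H i) ((adE ((X.A σ).φ i)).restrict hst) (expoF X i) (by
      intro t ht
      obtain ⟨x, hx⟩ := ht.exists_hasEigenvector
      have hx1 := hx.apply_eq_smul
      have hx2 : adE ((X.A σ).φ i) (x : Module.End Ω (X.H.H i)) = t • (x : Module.End Ω _) :=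
        congrArg Subtype.val hx1
      have hx0 : (x : Module.End Ω (X.H.H i)) ≠ 0 := fun h => hx.2 (Subtype.ext h)
      refine P.eig X.two_le hi x.2 hx0 ?_
      rw [Module.End.mem_maxGenEigenspace]
      refine ⟨1, ?_⟩
      rw [pow_one, LinearMap.sub_apply, hx2, LinearMap.smul_apply]
      exact sub_self _)
    have h2 := restrict_quasi (p := cen X.H i) (f := (adE ((X.A σ).φ i)).restrict hst)
      (g := adE ((X.A σ).φ i)) (fun x => rfl) (expoF X i) (finrank Ω (cen X.H i)) ⟨a, ha⟩
    rw [h1] at h2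
    rw [← h2]
    exact map_zero L
  have h3 := fun L : Module.Dual Ω (Module.End Ω (X.H.H i)) => key L σ (Set.mem_univ σ)
  exact (Module.forall_dual_apply_eq_zero_iff Ω _).1 h3

variable {X} {F : X.H.Auto} (hF : X.InClosure F)

include hF in
/-- The elements of the Zariski closure act quasi-unipotently on the commutant of `so(H²)`. -/
lemma closure_quasi {i : ℕ} (hi : i ≤ X.d) {a : Module.End Ω (X.H.H i)} (ha : a ∈ cen X.H i) :
    (((adE (F.φ i)) ^ (expoF X i) - 1) ^ (finrank Ω (cen X.H i))) a = 0 := by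
  refine (Module.forall_dual_apply_eq_zero_iff Ω _).1 fun L => ?_
  refine hF _ (reg_quasi hi (expoF X i) (finrank Ω (cen X.H i)) a L) fun σ => ?_
  change L ((((adE ((X.A σ).φ i)) ^ (expoF X i) - 1) ^ (finrank Ω (cen X.H i))) a) = 0
  rw [X.quasi hi ha σ, map_zero]

include hF in
lemma closure_root {i : ℕ} (hi : i ≤ X.d) {a : Module.End Ω (X.H.H i)} (ha : a ∈ cen X.H i)
    (ha0 : a ≠ 0) {t : Ω} (hat : a ∈ (adE (F.φ i)).maxGenEigenspace t) :
    t ^ expoF X i = 1 := by
  refine root_of_quasi (m := finrank Ω (cen X.H i)) ha0 hat ?_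
  rintro b ⟨k, rfl⟩
  refine closure_quasi hF hi ?_
  induction k with
  | zero => exact ha
  | succ k ih =>
    rw [_root_.pow_succ', Module.End.mul_apply, LinearMap.sub_apply]
    exact Submodule.sub_mem _ (cen_ad _ ih) (Submodule.smul_mem _ _ ih)

omit [CharZero Ω] [IsAlgClosed Ω] [T2Space Ω] [TopologicalSpace Ω] [IsTopologicalRing Ω] in
lemma adE_fix_iff {V : Type} [AddCommGroup V] [Module Ω V] (φ : V ≃ₗ[Ω] V)
    (z : Module.End Ω V) : adE φ z = z ↔ Commute (en φ) z := by
  constructor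
  · intro h
    change en φ * z = z * en φ
    ext y
    have := congrArg (fun f : Module.End Ω V => f (φ y)) h
    simp only [adE_apply] at this
    exact this
  · intro h
    ext y
    have h1 := congrArg (fun f : Module.End Ω V => f (φ.symm y)) h.eq
    have h2 : adE φ z y = φ (z (φ.symm y)) := by
      simp [Pool.Agent.N184.HK.adE, LinearEquiv.conj_apply]
    rw [h2]
    change φ (z (φ.symm y)) = z (φ (φ.symm y)) at h1
    rw [h1, LinearEquiv.apply_symm_apply]

/-- The conjugates of an idempotent which commutes with its conjugates are finite in number. -/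
lemma finite_orbit {i : ℕ} {z : Module.End Ω (X.H.H i)} (hzz : z * z = z)
    (hzc : ∀ σ, Commute z (adE ((X.A σ).φ i) z)) :
    (Set.range fun σ => adE ((X.A σ).φ i) z).Finite := by
  obtain ⟨O, hO, hO1, hOz⟩ := t_open Ω (X.H.H i) X.Γ (fun σ => (X.A σ).φ i)
    (fun σ τ => X.mul σ τ i) (X.cont i) z hzz hzc
  -- the stabilizer
  let U : Subgroup X.Γ :=
    { carrier := {σ | adE ((X.A σ).φ i) z = z}
      mul_mem' := by
        intro σ τ hσ hτ
        change adE ((X.A (σ * τ)).φ i) z = z
        rw [X.adE_mul]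
        have h1 : adE ((X.A τ).φ i) z = z := hτ
        rw [h1]
        exact hσ
      one_mem' := by
        change adE ((X.A 1).φ i) z = z
        refine (adE_fix_iff _ _).2 ?_
        have h1 : en ((X.A 1).φ i) = 1 := by
          ext x
          exact X.A_one i x
        rw [h1]
        exact Commute.one_left z
      inv_mem' := by
        intro σ hσ
        change adE ((X.A σ⁻¹).φ i) z = z
        have h1 : adE ((X.A σ).φ i) z = z := hσ
        have h2 := X.adE_mul σ⁻¹ σ i z
        rw [inv_mul_cancel, h1] at h2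
        have h3 : adE ((X.A 1).φ i) z = z := by
          refine (adE_fix_iff _ _).2 ?_
          have h1 : en ((X.A 1).φ i) = 1 := by
            ext x
            exact X.A_one i x
          rw [h1]
          exact Commute.one_left z
        rw [← h2, h3] }
  have hU : IsOpen (U : Set X.Γ) :=
    Subgroup.isOpen_of_mem_nhds U (g := 1)
      (Filter.mem_of_superset (hO.mem_nhds hO1) fun σ hσ => hOz σ hσ)
  have hfin : Finite (X.Γ ⧸ U) := Subgroup.quotient_finite_of_isOpen U hU
  have hdesc : ∀ σ τ : X.Γ, (QuotientGroup.mk σ : X.Γ ⧸ U) = QuotientGroup.mk τ →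
      adE ((X.A σ).φ i) z = adE ((X.A τ).φ i) z := by
    intro σ τ h
    have h1 : σ⁻¹ * τ ∈ U := QuotientGroup.eq.1 h
    have h2 : adE ((X.A (σ⁻¹ * τ)).φ i) z = z := h1
    have h3 : τ = σ * (σ⁻¹ * τ) := by group
    rw [h3, X.adE_mul, h2]
  refine Set.Finite.subset (Set.finite_range fun y : X.Γ ⧸ U =>
    adE ((X.A (Quotient.out y)).φ i) z) ?_
  rintro _ ⟨σ, rfl⟩
  refine ⟨(QuotientGroup.mk σ : X.Γ ⧸ U), ?_⟩
  exact hdesc _ _ (QuotientGroup.out_eq' _)

include hF in
/-- Determinants of the elements of the Zariski closure. -/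
lemma closure_det {i : ℕ} (hi : i ≤ X.d) {z : Module.End Ω (X.H.H i)} (hz : z ∈ cen X.H i)
    (hzz : z * z = z) (hzc : ∀ a ∈ cen X.H i, Commute a z)
    (hzφ : Commute (en (F.φ i)) z) {n : ℕ} (hn : LinearMap.trace Ω _ z = n) :
    LinearMap.det (en (F.φ i) * z + (1 - z)) ^ (4 * expoD X.H i n) =
      F.μ ^ (i * n * expoD X.H i n) := by
  have hfin := finite_orbit (X := X) hzz fun σ => (hzc _ (cen_ad _ hz)).symm
  set S : Finset (Module.End Ω (X.H.H i)) := hfin.toFinset.erase z with hS
  have hL : ∀ w : Module.End Ω (X.H.H i), w ≠ z →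
      ∃ L : Module.Dual Ω (Module.End Ω (X.H.H i)), L (z - w) ≠ 0 := by
    intro w hw
    by_contra hcon
    push Not at hcon
    exact hw (sub_eq_zero.1 ((Module.forall_dual_apply_eq_zero_iff Ω _).1 hcon)).symm
  choose! L hL using hL
  -- the regular function
  set f : X.H.Auto → Ω := (fun G => LinearMap.det (en (G.φ i) * z + (1 - z))) ^
    (4 * expoD X.H i n) - (fun G => G.μ) ^ (i * n * expoD X.H i n) with hf
  set g : X.H.Auto → Ω := ∏ w ∈ S, fun G => L w (adE (G.φ i) z - w) with hg
  have hfr : f ∈ regular X.H := by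
    refine (regular X.H).sub_mem ((regular X.H).pow_mem ?_ _) ((regular X.H).pow_mem mu_mem _)
    exact (((reg_phi hi).mul (reg_const z)).add (reg_const (1 - z))).det
  have hgr : g ∈ regular X.H := by
    refine (regular X.H).prod_mem fun w _ => ?_
    exact (((reg_const z).adE hi).sub (reg_const w)) (L w)
  have hfg := hF (f * g) ((regular X.H).mul_mem hfr hgr) ?_
  · rw [Pi.mul_apply] at hfg
    rcases mul_eq_zero.1 hfg with h | h
    · rw [hf] at h
      exact sub_eq_zero.1 h
    · exfalso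
      rw [hg, Finset.prod_apply, Finset.prod_eq_zero_iff] at h
      obtain ⟨w, hw, h0⟩ := h
      have h1 : adE (F.φ i) z = z := (adE_fix_iff _ _).2 hzφ
      rw [h1] at h0
      exact hL w (Finset.ne_of_mem_erase hw) h0
  · intro σ
    rw [Pi.mul_apply]
    by_cases hσ : adE ((X.A σ).φ i) z = z
    · -- the set of the elements which fix `z` is open
      have hσz : Commute (en ((X.A σ).φ i)) z := (adE_fix_iff _ _).1 hσ
      obtain ⟨O, hO, hO1, hOz⟩ := t_open Ω (X.H.H i) X.Γ (fun σ => (X.A σ).φ i)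
        (fun σ τ => X.mul σ τ i) (X.cont i) z hzz fun σ => (hzc _ (cen_ad _ hz)).symm
      set O' : Set X.Γ := (fun τ => σ⁻¹ * τ) ⁻¹' O with hO'
      have hO'o : IsOpen O' := hO.preimage (continuous_const.mul continuous_id)
      have hmem : σ ∈ O' := by
        change σ⁻¹ * σ ∈ O
        rw [inv_mul_cancel]
        exact hO1
      have hO'z : ∀ τ ∈ O', Commute (en ((X.A τ).φ i)) z := by
        intro τ hτ
        refine (adE_fix_iff _ _).1 ?_
        have h1 : τ = σ * (σ⁻¹ * τ) := by group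
        rw [h1, X.adE_mul, hOz _ hτ]
        exact hσ
      have hcts : Cts fun τ => en ((X.A τ).φ i) * z + (1 - z) := by
        intro M
        have h1 := (t_cts Ω (X.H.H i) X.Γ _ (fun _ => z) (X.cont i)
          (fun M => continuous_const)).1 M
        simp only [map_add]
        exact h1.add continuous_const
      have hgc : Continuous fun τ => LinearMap.det (en ((X.A τ).φ i) * z + (1 - z)) ^
          (4 * expoD X.H i n) - (X.A τ).μ ^ (i * n * expoD X.H i n) :=
        ((t_cts Ω (X.H.H i) X.Γ _ _ hcts hcts).2.pow _).sub (X.cont_μ.pow _)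
      have h0 := X.dense_zero hO'o hgc (fun τ hτ P =>
        sub_eq_zero.2 (P.det X.two_le hi hz hzz (hO'z τ hτ) hn)) σ hmem
      have h1 : f (X.A σ) = 0 := h0
      rw [h1, zero_mul]
    · have h1 : g (X.A σ) = 0 := by
        rw [hg, Finset.prod_apply]
        refine Finset.prod_eq_zero (i := adE ((X.A σ).φ i) z) ?_ ?_
        · rw [hS, Finset.mem_erase]
          exact ⟨hσ, hfin.mem_toFinset.2 ⟨σ, rfl⟩⟩
        · rw [sub_self, map_zero]
      rw [h1, mul_zero]

end family

end Pool.Agent.V7H12.LF
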